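import Pool.Agent.V11108.Sq
import Pool.Agent.V11108.Dendrite

/-!
# MP_fd67f7: a continuous self-map of a dendrite with a DC2½ pair but no DC2 pair.
-/

namespace Pool.Agent.Results.MP_fd67f7_an.DCHalf

open Set Topology Filter Pool.Agent.V11108.Sq Pool.Agent.V11108.Dendrite

section Defs

variable {X : Type*} [MetricSpace X]

open Classical in
/-- `#{0 ≤ k ≤ n : d(f^k x, f^k y) < δ}` -/
noncomputable def cnt (f : X → X) (x y : X) (δ : ℝ) (n : ℕ) : ℕ :=
  ((Finset.range (n + 1)).filter fun k => dist (f^[k] x) (f^[k] y) < δ).card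

/-- the lower distribution function `Φ_{xy}(δ)` -/
noncomputable def Phi (f : X → X) (x y : X) (δ : ℝ) : ℝ :=
  liminf (fun n : ℕ => (cnt f x y δ n : ℝ) / n) atTop

/-- the upper distribution function `Φ*_{xy}(δ)` -/
noncomputable def PhiStar (f : X → X) (x y : X) (δ : ℝ) : ℝ :=
  limsup (fun n : ℕ => (cnt f x y δ n : ℝ) / n) atTop

/-- DC2 pairs -/
def IsDC2Pair (f : X → X) (x y : X) : Prop :=
  x ≠ y ∧ (∀ δ : ℝ, 0 < δ → δ ≤ Metric.diam (univ : Set X) → PhiStar f x y δ = 1) ∧
    ∃ ε : ℝ, 0 < ε ∧ ε ≤ Metric.diam (univ : Set X) ∧ Phi f x y ε < 1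

/-- DC2½ pairs: `Φ_{xy}(0) < Φ*_{xy}(0)`, the values at `0` being the limits as `δ → 0+` -/
def IsDC2HalfPair (f : X → X) (x y : X) : Prop :=
  x ≠ y ∧ ∃ a b : ℝ, Tendsto (fun δ => Phi f x y δ) (𝓝[>] 0) (𝓝 a) ∧
    Tendsto (fun δ => PhiStar f x y δ) (𝓝[>] 0) (𝓝 b) ∧ a < b

lemma cnt_le (f : X → X) (x y : X) (δ : ℝ) (n : ℕ) : cnt f x y δ n ≤ n + 1 := by
  classical
  refine (Finset.card_filter_le _ _).trans ?_
  simp

lemma ratio_nonneg (f : X → X) (x y : X) (δ : ℝ) (n : ℕ) : 0 ≤ (cnt f x y δ n : ℝ) / n := by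
  positivity

lemma ratio_le (f : X → X) (x y : X) (δ : ℝ) (n : ℕ) : (cnt f x y δ n : ℝ) / n ≤ 2 := by
  rcases Nat.eq_zero_or_pos n with rfl | hn
  · simp
  · have h1 : (cnt f x y δ n : ℝ) ≤ n + 1 := by exact_mod_cast cnt_le f x y δ n
    have h2 : (1 : ℝ) ≤ n := by exact_mod_cast hn
    rw [div_le_iff₀ (by linarith)]
    linarith

lemma bdd_above (f : X → X) (x y : X) (δ : ℝ) :
    IsBoundedUnder (· ≤ ·) atTop (fun n : ℕ => (cnt f x y δ n : ℝ) / n) :=
  isBoundedUnder_of ⟨2, ratio_le f x y δ⟩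

lemma bdd_below (f : X → X) (x y : X) (δ : ℝ) :
    IsBoundedUnder (· ≥ ·) atTop (fun n : ℕ => (cnt f x y δ n : ℝ) / n) :=
  isBoundedUnder_of ⟨0, ratio_nonneg f x y δ⟩

lemma cnt_mono (f : X → X) (x y : X) {δ δ' : ℝ} (h : δ ≤ δ') (n : ℕ) :
    cnt f x y δ n ≤ cnt f x y δ' n := by
  classical
  refine Finset.card_le_card fun k hk => ?_
  rw [Finset.mem_filter] at hk ⊢
  exact ⟨hk.1, lt_of_lt_of_le hk.2 h⟩

lemma ratio_mono (f : X → X) (x y : X) {δ δ' : ℝ} (h : δ ≤ δ') (n : ℕ) :
    (cnt f x y δ n : ℝ) / n ≤ (cnt f x y δ' n : ℝ) / n := by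
  have : (cnt f x y δ n : ℝ) ≤ cnt f x y δ' n := by exact_mod_cast cnt_mono f x y h n
  exact div_le_div_of_nonneg_right this (Nat.cast_nonneg n)

lemma Phi_mono (f : X → X) (x y : X) : Monotone fun δ => Phi f x y δ := fun _ _ h =>
  liminf_le_liminf (Eventually.of_forall fun n => ratio_mono f x y h n)
    (bdd_below f x y _) (bdd_above f x y _).isCoboundedUnder_ge

lemma PhiStar_mono (f : X → X) (x y : X) : Monotone fun δ => PhiStar f x y δ := fun _ _ h =>
  limsup_le_limsup (Eventually.of_forall fun n => ratio_mono f x y h n)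
    (bdd_below f x y _).isCoboundedUnder_le (bdd_above f x y _)

/-- criterion for DC2½ pairs -/
lemma dchalf_of (f : X → X) (x y : X) (hxy : x ≠ y) {a b : ℝ} (hab : a < b)
    (h1 : ∀ δ > 0, δ ≤ 1 → ∃ᶠ n : ℕ in atTop, (cnt f x y δ n : ℝ) / n ≤ a)
    (h2 : ∀ δ > 0, δ ≤ 1 → ∃ᶠ n : ℕ in atTop, b ≤ (cnt f x y δ n : ℝ) / n) :
    IsDC2HalfPair f x y := by
  have hmem : ∀ᶠ δ in 𝓝[>] (0 : ℝ), 0 < δ ∧ δ ≤ 1 := by
    have h3 : Ioc (0 : ℝ) 1 ∈ 𝓝[>] (0 : ℝ) := Ioc_mem_nhdsGT one_pos
    filter_upwards [h3] with δ hδ using hδ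
  have t1 := (Phi_mono f x y).tendsto_nhdsGT (0 : ℝ)
  have t2 := (PhiStar_mono f x y).tendsto_nhdsGT (0 : ℝ)
  refine ⟨hxy, _, _, t1, t2, ?_⟩
  have h3 := le_of_tendsto t1 (hmem.mono fun δ hδ =>
    liminf_le_of_frequently_le (h1 δ hδ.1 hδ.2) (bdd_below f x y δ))
  have h4 := ge_of_tendsto t2 (hmem.mono fun δ hδ =>
    le_limsup_of_frequently_le (h2 δ hδ.1 hδ.2) (bdd_above f x y δ))
  exact lt_of_le_of_lt h3 (lt_of_lt_of_le hab h4)

/-- not DC2: the upper function at `δ = 1` is smaller than one -/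
lemma not_dc2_of_upper (f : X → X) (x y : X) (hd : 1 ≤ Metric.diam (univ : Set X)) {c : ℝ}
    (hc : c < 1) (h : ∀ᶠ n : ℕ in atTop, (cnt f x y 1 n : ℝ) / n ≤ c) : ¬ IsDC2Pair f x y := by
  rintro ⟨_, h1, _⟩
  have h2 := h1 1 one_pos hd
  have h3 : PhiStar f x y 1 ≤ c := limsup_le_of_le (bdd_below f x y 1).isCoboundedUnder_le h
  linarith

/-- not DC2: the lower functions are one -/
lemma not_dc2_of_lower (f : X → X) (x y : X)
    (h : ∀ ε > 0, ∀ c < 1, ∀ᶠ n : ℕ in atTop, c ≤ (cnt f x y ε n : ℝ) / n) :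
    ¬ IsDC2Pair f x y := by
  rintro ⟨_, _, ε, hε, _, h1⟩
  obtain ⟨c, hc1, hc2⟩ := exists_between h1
  have h2 : c ≤ Phi f x y ε :=
    le_liminf_of_le (bdd_above f x y ε).isCoboundedUnder_ge (h ε hε c hc2)
  linarith

lemma cnt_comm (f : X → X) (x y : X) (δ : ℝ) (n : ℕ) : cnt f x y δ n = cnt f y x δ n := by
  classical
  unfold cnt
  congr 1
  refine Finset.filter_congr fun k _ => ?_
  rw [dist_comm]

lemma dc2_symm {f : X → X} {x y : X} (h : IsDC2Pair f x y) : IsDC2Pair f y x := by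
  obtain ⟨h1, h2, ε, h3, h4, h5⟩ := h
  refine ⟨h1.symm, fun δ hδ hδ' => ?_, ε, h3, h4, ?_⟩
  · rw [← h2 δ hδ hδ']
    unfold PhiStar
    congr 1; funext n; rw [cnt_comm]
  · refine lt_of_eq_of_lt ?_ h5
    unfold Phi
    congr 1; funext n; rw [cnt_comm]

/-- many far instants imply the upper bound -/
lemma upper_of (f : X → X) (x y : X) (C : ℕ)
    (h : ∀ n : ℕ, ∃ s ⊆ Finset.range (n + 1), (∀ k ∈ s, 1 ≤ dist (f^[k] x) (f^[k] y)) ∧
      n ≤ 8 * (s.card + C)) :
    ∀ᶠ n : ℕ in atTop, (cnt f x y 1 n : ℝ) / n ≤ 15 / 16 := by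
  classical
  filter_upwards [eventually_ge_atTop (16 * (C + 1))] with n hn
  obtain ⟨s, hs, hs2, hs3⟩ := h n
  have h1 : cnt f x y 1 n + s.card ≤ n + 1 := by
    unfold cnt
    rw [← Finset.card_union_of_disjoint]
    · refine (Finset.card_le_card (Finset.union_subset (Finset.filter_subset _ _) hs)).trans ?_
      simp
    · rw [Finset.disjoint_left]
      intro k hk hk2
      exact absurd (Finset.mem_filter.1 hk).2 (not_lt.2 (hs2 k hk2))
  have hn0 : (0 : ℝ) < n := by
    have : 0 < n := by omega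
    exact_mod_cast this
  rw [div_le_iff₀ hn0]
  have h2 : 16 * cnt f x y 1 n ≤ 15 * n := by omega
  have h3 : (16 : ℝ) * cnt f x y 1 n ≤ 15 * n := by exact_mod_cast h2
  linarith

/-- few far instants imply the lower bound -/
lemma lower_of (f : X → X) (x y : X) (ε : ℝ) (W : ℕ)
    (h : ∀ n : ℕ, n + 1 ≤ cnt f x y ε n + W * (Nat.log 2 n + W)) :
    ∀ c < 1, ∀ᶠ n : ℕ in atTop, c ≤ (cnt f x y ε n : ℝ) / n := by
  intro c hc
  have h1 : Tendsto (fun n : ℕ => (W : ℝ) * (Real.log n / n / Real.log 2) + (W : ℝ) * W * (1 / n))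
      atTop (𝓝 0) := by
    have t1 : Tendsto (fun n : ℕ => Real.log n / n) atTop (𝓝 0) :=
      Real.isLittleO_log_id_atTop.tendsto_div_nhds_zero.comp tendsto_natCast_atTop_atTop
    have t2 : Tendsto (fun n : ℕ => (1 : ℝ) / n) atTop (𝓝 0) := tendsto_one_div_atTop_nhds_zero_nat
    have t3 := ((t1.div_const (Real.log 2)).const_mul (W : ℝ)).add (t2.const_mul ((W : ℝ) * W))
    simpa using t3
  have h2 := h1.eventually (gt_mem_nhds (show (0 : ℝ) < 1 - c by linarith))
  filter_upwards [h2, eventually_ge_atTop 1] with n hn hn1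
  have hn0 : (0 : ℝ) < n := by exact_mod_cast hn1
  have h3 : (n : ℝ) + 1 ≤ cnt f x y ε n + W * (Nat.log 2 n + W) := by exact_mod_cast h n
  have h4 : (Nat.log 2 n : ℝ) ≤ Real.log n / Real.log 2 := by
    have := Real.natLog_le_logb n 2
    rwa [Real.logb] at this
  rw [le_div_iff₀ hn0]
  have h5 : (W : ℝ) * (Real.log n / n / Real.log 2) + (W : ℝ) * W * (1 / n) =
      (W * (Real.log n / Real.log 2 + W)) / n := by
    field_simp
  rw [h5, div_lt_iff₀ hn0] at hn
  have h6 : (W : ℝ) * (Nat.log 2 n + W) ≤ W * (Real.log n / Real.log 2 + W) := by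
    gcongr
  nlinarith

end Defs

/-! ### The sequence -/

/-- the sequence with runs `[2^j, 2^{j+1})` of the symbol `j mod 2` -/
def x0 : Sq Bool := fun n => decide (Nat.log 2 n % 2 = 1)

lemma x0_run {j n : ℕ} (h1 : 2 ^ j ≤ n) (h2 : n < 2 ^ (j + 1)) : x0 n = decide (j % 2 = 1) := by
  have : Nat.log 2 n = j := (Nat.log_eq_iff (Or.inr ⟨by norm_num, by
    have : 0 < 2 ^ j := by positivity
    omega⟩)).2 ⟨h1, h2⟩
  unfold x0; rw [this]

lemma change_pow {i : ℕ} (h : x0 i ≠ x0 (i + 1)) : ∃ j, i + 1 = 2 ^ j := by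
  by_contra hcon
  push Not at hcon
  apply h
  have h1 : 2 ^ (Nat.log 2 (i + 1)) ≤ i + 1 := Nat.pow_log_le_self 2 (by omega)
  have h2 : i + 1 < 2 ^ (Nat.log 2 (i + 1) + 1) := Nat.lt_pow_succ_log_self (by norm_num) _
  have h3 := hcon (Nat.log 2 (i + 1))
  rw [x0_run h1 h2, x0_run (j := Nat.log 2 (i + 1)) (by omega) (by omega)]

/-- the space -/
def S : Set (Sq Bool) := closure (range fun n => sh^[n] x0)

lemma classify {z : Sq Bool} (hz : z ∈ S) :
    (∃ n, z = sh^[n] x0) ∨ ∃ c M, ∀ i ≥ M, z i = c := by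
  by_contra hcon
  push Not at hcon
  obtain ⟨h1, h2⟩ := hcon
  have hch : ∀ M, ∃ i ≥ M, z i ≠ z (i + 1) := by
    intro M
    by_contra h
    push Not at h
    have : ∀ k, z (M + k) = z M := by
      intro k
      induction k with
      | zero => rfl
      | succ k ih => rw [← ih]; exact (h (M + k) (by omega)).symm
    obtain ⟨i, hi, hne⟩ := h2 (z M) M
    apply hne
    obtain ⟨k, rfl⟩ := Nat.exists_eq_add_of_le hi
    exact this k
  obtain ⟨p, -, hp⟩ := hch 0
  obtain ⟨q, hpq, hq⟩ := hch (p + 1)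
  have hsplit : (range fun n => sh^[n] x0) ⊆ ((fun n => sh^[n] x0) '' (Iic (q - p))) ∪
      ((fun n => sh^[n] x0) '' (Ioi (q - p))) := by
    rintro _ ⟨n, rfl⟩
    rcases le_or_gt n (q - p) with h | h
    · exact Or.inl ⟨n, h, rfl⟩
    · exact Or.inr ⟨n, h, rfl⟩
  have h3 := closure_mono hsplit hz
  rw [closure_union, (((finite_Iic (q - p)).image _).isClosed).closure_eq] at h3
  rcases h3 with ⟨n, _, hn⟩ | h3
  · exact h1 n hn.symm
  · obtain ⟨w, ⟨n, hn, rfl⟩, hw⟩ := Metric.mem_closure_iff.1 h3 ((1 / 2) ^ (q + 1)) (by positivity)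
    have hag : ∀ i ≤ q + 1, z i = x0 (i + n) := fun i hi =>
      (apply_eq hw hi).trans (sh_iter x0 n i)
    rw [hag p (by omega), hag (p + 1) (by omega)] at hp
    rw [hag q (by omega), hag (q + 1) (by omega)] at hq
    obtain ⟨j, hj⟩ := change_pow (i := p + n) (by rwa [show p + n + 1 = p + 1 + n by ring])
    obtain ⟨j', hj'⟩ := change_pow (i := q + n) (by rwa [show q + n + 1 = q + 1 + n by ring])
    have hjj : j < j' := by
      by_contra h
      push Not at h
      have : 2 ^ j' ≤ 2 ^ j := Nat.pow_le_pow_right (by norm_num) h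
      omega
    have h4 : 2 ^ (j + 1) ≤ 2 ^ j' := Nat.pow_le_pow_right (by norm_num) hjj
    rw [pow_succ] at h4
    have hn' : q - p < n := hn
    omega

lemma sh_mem {z : Sq Bool} (hz : z ∈ S) : sh z ∈ S := by
  refine map_mem_closure sh_cont hz ?_
  rintro _ ⟨n, rfl⟩
  exact ⟨n + 1, Function.iterate_succ_apply' _ _ _⟩

abbrev X := {z : Sq Bool // z ∈ S}

instance : CompactSpace X := isCompact_iff_compactSpace.1 isClosed_closure.isCompact

def T (z : X) : X := ⟨sh z.1, sh_mem z.2⟩

lemma T_iter (k : ℕ) (z : X) : (T^[k] z).1 = sh^[k] z.1 := by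
  induction k generalizing z with
  | zero => rfl
  | succ k ih => rw [Function.iterate_succ_apply, Function.iterate_succ_apply, ih]; rfl

/-- the symbol `c` occurs at least `n/8 - 1` times in `[0,n]` -/
lemma many (c : Bool) (n : ℕ) : ∃ s ⊆ Finset.range (n + 1), (∀ k ∈ s, x0 k = c) ∧
    n ≤ 8 * (s.card + 1) := by
  rcases lt_or_ge n 8 with h8 | h8
  · exact ⟨∅, by simp, by simp, by simp; omega⟩
  · obtain ⟨L, hL⟩ : ∃ L, L = Nat.log 2 n := ⟨_, rfl⟩
    have h1 : 2 ^ L ≤ n := by rw [hL]; exact Nat.pow_log_le_self 2 (by omega)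
    have h2 : n < 2 ^ (L + 1) := by rw [hL]; exact Nat.lt_pow_succ_log_self (by norm_num) _
    have hL3 : 3 ≤ L := by
      rw [hL]; exact Nat.le_log_of_pow_le (by norm_num) (by simpa using h8)
    obtain ⟨m, rfl⟩ : ∃ m, L = m + 2 := ⟨L - 2, by omega⟩
    have key : ∃ j, (j = m ∨ j = m + 1) ∧ decide (j % 2 = 1) = c := by
      cases c
      · rcases Nat.mod_two_eq_zero_or_one m with h | h
        · exact ⟨m, Or.inl rfl, by simp [h]⟩
        · refine ⟨m + 1, Or.inr rfl, ?_⟩
          have : (m + 1) % 2 = 0 := by omega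
          simp [this]
      · rcases Nat.mod_two_eq_zero_or_one m with h | h
        · refine ⟨m + 1, Or.inr rfl, ?_⟩
          have : (m + 1) % 2 = 1 := by omega
          simp [this]
        · exact ⟨m, Or.inl rfl, by simp [h]⟩
    obtain ⟨j, hj, hc⟩ := key
    have e1 : 2 ^ (m + 2 + 1) = 8 * 2 ^ m := by ring
    have e2 : 2 ^ (m + 2) = 4 * 2 ^ m := by ring
    have e3 : 2 ^ (j + 1) = 2 * 2 ^ j := by ring
    have hjm : 2 ^ m ≤ 2 ^ j ∧ 2 ^ j ≤ 2 * 2 ^ m := by
      rcases hj with rfl | rfl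
      · constructor <;> omega
      · rw [pow_succ]; constructor <;> omega
    refine ⟨Finset.Ico (2 ^ j) (2 ^ (j + 1)), ?_, ?_, ?_⟩
    · intro k hk
      rw [Finset.mem_Ico] at hk
      rw [Finset.mem_range]
      omega
    · intro k hk
      rw [Finset.mem_Ico] at hk
      rw [x0_run hk.1 hk.2, hc]
    · rw [Nat.card_Ico]
      omega

/-- bad instants for two shifts of `x0` -/
lemma bad_card (m m' J n : ℕ) (hm : m < m') :
    ((Finset.range (n + 1)).filter fun k => ∃ i ≤ J, x0 (i + (k + m)) ≠ x0 (i + (k + m'))).card ≤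
      (J + m' + 2) * (Nat.log 2 n + (J + m' + 2)) := by
  classical
  obtain ⟨W, hW⟩ : ∃ W, W = J + m' + 1 := ⟨_, rfl⟩
  have hsub : ((Finset.range (n + 1)).filter fun k => ∃ i ≤ J, x0 (i + (k + m)) ≠
      x0 (i + (k + m'))) ⊆
      (Finset.range (Nat.log 2 (n + W) + 1)).biUnion fun j => Finset.Ico (2 ^ j - W) (2 ^ j) := by
    intro k hk
    obtain ⟨hk1, i, hi, hne⟩ := Finset.mem_filter.1 hk
    rw [Finset.mem_range] at hk1
    have hlog : Nat.log 2 (i + (k + m)) < Nat.log 2 (i + (k + m')) := by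
      refine lt_of_le_of_ne (Nat.log_mono_right (by omega)) fun h => hne ?_
      unfold x0; rw [h]
    have h1 : 2 ^ (Nat.log 2 (i + (k + m'))) ≤ i + (k + m') := Nat.pow_log_le_self 2 (by omega)
    have h2 : i + (k + m) < 2 ^ (Nat.log 2 (i + (k + m'))) :=
      Nat.lt_pow_of_log_lt (by norm_num) hlog
    refine Finset.mem_biUnion.2 ⟨Nat.log 2 (i + (k + m')), ?_, ?_⟩
    · rw [Finset.mem_range, Nat.lt_succ_iff]
      exact Nat.log_mono_right (by omega)
    · rw [Finset.mem_Ico]
      generalize 2 ^ (Nat.log 2 (i + (k + m'))) = P at h1 h2 ⊢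
      omega
  refine (Finset.card_le_card hsub).trans (Finset.card_biUnion_le.trans ?_)
  have h3 : ∀ j ∈ Finset.range (Nat.log 2 (n + W) + 1), (Finset.Ico (2 ^ j - W) (2 ^ j)).card ≤ W := by
    intro j _
    rw [Nat.card_Ico]; omega
  refine (Finset.sum_le_card_nsmul _ _ _ h3).trans ?_
  rw [Finset.card_range, smul_eq_mul]
  have h4 : Nat.log 2 (n + W) ≤ Nat.log 2 n + W := by
    rcases Nat.eq_zero_or_pos n with rfl | hn
    · rw [Nat.zero_add]
      exact (Nat.log_le_self 2 W).trans (Nat.le_add_left _ _)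
    · have h5 : n + W < 2 ^ (Nat.log 2 n + W + 1) := by
        have h6 : W + 1 ≤ 2 ^ W := Nat.lt_two_pow_self
        have h7 : n + 1 ≤ 2 ^ (Nat.log 2 n + 1) := Nat.lt_pow_succ_log_self (by norm_num) n
        have h8 := Nat.mul_le_mul h7 h6
        have h9 : 2 ^ (Nat.log 2 n + W + 1) = 2 ^ (Nat.log 2 n + 1) * 2 ^ W := by ring
        rw [h9]
        nlinarith
      exact Nat.lt_succ_iff.1 (Nat.log_lt_of_lt_pow (by omega) h5)
  have h7 : J + m' + 2 = W + 1 := by omega
  rw [h7]
  nlinarith [Nat.zero_le (Nat.log 2 n)]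

/-- eventually equal orbits are not DC2 -/
lemma not_dc2_eq {Y : Type*} [MetricSpace Y] (f : Y → Y) (x y : Y) (N : ℕ)
    (h : ∀ k ≥ N, f^[k] x = f^[k] y) : ¬ IsDC2Pair f x y := by
  classical
  refine not_dc2_of_lower f x y fun ε hε => lower_of f x y ε N fun n => ?_
  have h1 : (Finset.range (n + 1)) ⊆ ((Finset.range (n + 1)).filter fun k =>
      dist (f^[k] x) (f^[k] y) < ε) ∪ Finset.range N := by
    intro k hk
    rw [Finset.mem_union, Finset.mem_filter]
    rcases lt_or_ge k N with h2 | h2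
    · exact Or.inr (Finset.mem_range.2 h2)
    · left
      refine ⟨hk, ?_⟩
      rw [h k h2, dist_self]; exact hε
  have h2 := (Finset.card_le_card h1).trans (Finset.card_union_le _ _)
  rw [Finset.card_range, Finset.card_range] at h2
  have h3 : N ≤ N * (Nat.log 2 n + N) := by
    rcases Nat.eq_zero_or_pos N with rfl | hN
    · simp
    · nlinarith [Nat.zero_le (Nat.log 2 n)]
  unfold cnt
  omega

/-- eventually far orbits are not DC2 -/
lemma not_dc2_far {Y : Type*} [MetricSpace Y] (f : Y → Y) (x y : Y)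
    (hd : 1 ≤ Metric.diam (univ : Set Y)) (N : ℕ)
    (h : ∀ k ≥ N, 1 ≤ dist (f^[k] x) (f^[k] y)) : ¬ IsDC2Pair f x y := by
  refine not_dc2_of_upper f x y hd (by norm_num : (15 / 16 : ℝ) < 1)
    (upper_of f x y N fun n => ⟨Finset.Ico N (n + 1), ?_, ?_, ?_⟩)
  · intro k hk
    rw [Finset.mem_Ico] at hk
    exact Finset.mem_range.2 hk.2
  · intro k hk
    rw [Finset.mem_Ico] at hk
    exact h k hk.1
  · rw [Nat.card_Ico]; omega

lemma x0_mem (n : ℕ) : sh^[n] x0 ∈ S := subset_closure ⟨n, rfl⟩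

/-- the zero sequence -/
def zero : Sq Bool := fun _ => false

lemma zero_mem : zero ∈ S := by
  refine Metric.mem_closure_iff.2 fun ε hε => ?_
  obtain ⟨n, hn⟩ := exists_pow_lt hε
  refine ⟨sh^[2 ^ (2 * n)] x0, ⟨_, rfl⟩, lt_of_lt_of_le (dist_lt_of_agree fun i hi => ?_) hn.le⟩
  have h1 : n < 2 ^ (2 * n) := lt_of_lt_of_le Nat.lt_two_pow_self
    (Nat.pow_le_pow_right (by norm_num) (by omega))
  refine Eq.trans ?_ (sh_iter x0 _ i).symm
  have e : 2 ^ (2 * n + 1) = 2 * 2 ^ (2 * n) := by ring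
  rw [x0_run (j := 2 * n) (by omega) (by omega)]
  have : (2 * n) % 2 = 0 := by omega
  simp [zero, this]

/-- There are a dendrite `D` and a continuous `f : D → D` which has a DC2½ pair but no DC2
pair. -/
theorem result : ∃ (D : Type) (_ : MetricSpace D) (f : D → D), IsDendrite D ∧ Continuous f ∧
    (∃ x y, IsDC2HalfPair f x y) ∧ ¬ ∃ x y, IsDC2Pair f x y := by
  classical
  have hne : Nonempty X := ⟨⟨zero, zero_mem⟩⟩
  obtain ⟨D, hDm, F, e, r, hD, hF, he, hFe, her, hFr, hall⟩ := exists_dendrite (X := X)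
    (fun x y => dist_le_one x.1 y.1) T (fun x y => sh_lip x.1 y.1)
  have hFit : ∀ (k : ℕ) (z : X), F^[k] (e z) = e (T^[k] z) := by
    intro k
    induction k with
    | zero => intro z; rfl
    | succ k ih => intro z; rw [Function.iterate_succ_apply, Function.iterate_succ_apply, hFe, ih]
  have hdist : ∀ (k : ℕ) (z w : X), dist (F^[k] (e z)) (F^[k] (e w)) =
      2 * dist (sh^[k] z.1) (sh^[k] w.1) := by
    intro k z w
    rw [hFit, hFit, he, Subtype.dist_eq, T_iter, T_iter]
  have hcompact : CompactSpace D := hD.1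
  have hdiam : 1 ≤ Metric.diam (univ : Set D) := by
    rw [← her ⟨zero, zero_mem⟩]
    exact Metric.dist_le_diam_of_mem isCompact_univ.isBounded trivial trivial
  have hfar : ∀ (k : ℕ) (z w : X), z.1 k ≠ w.1 k → 1 ≤ dist (F^[k] (e z)) (F^[k] (e w)) := by
    intro k z w hne
    rw [hdist, dist_eq_one]
    · norm_num
    · intro h
      apply hne
      have e1 := sh_iter z.1 k 0
      have e2 := sh_iter w.1 k 0
      rw [Nat.zero_add] at e1 e2
      exact e1.symm.trans (h.trans e2)
  -- an orbit point against an eventually constant point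
  have hoc : ∀ (z w : X) (m : ℕ) (c : Bool) (M : ℕ), z.1 = sh^[m] x0 → (∀ i ≥ M, w.1 i = c) →
      ¬ IsDC2Pair F (e z) (e w) := by
    intro z w m c M hz hw
    refine not_dc2_of_upper F _ _ hdiam (by norm_num : (15 / 16 : ℝ) < 1)
      (upper_of F _ _ (m + M + 1) fun n => ?_)
    obtain ⟨s', hs', hs'2, hs'3⟩ := many (!c) (n + m)
    refine ⟨(Finset.Ico M (n + 1)).filter fun k => x0 (k + m) = !c, ?_, ?_, ?_⟩
    · intro k hk
      have := Finset.mem_Ico.1 (Finset.mem_filter.1 hk).1
      exact Finset.mem_range.2 this.2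
    · intro k hk
      obtain ⟨hk1, hk2⟩ := Finset.mem_filter.1 hk
      have hk3 := (Finset.mem_Ico.1 hk1).1
      refine hfar k z w ?_
      rw [hw k hk3, hz]
      have e1 := sh_iter x0 m k
      intro h
      rw [← h] at hk2
      rw [e1] at hk2
      cases hb : x0 (k + m) <;> rw [hb] at hk2 <;> exact Bool.noConfusion hk2
    · have hsub : s' ⊆ (((Finset.Ico M (n + 1)).filter fun k => x0 (k + m) = !c).image
          (fun k => k + m)) ∪ Finset.range (m + M) := by
        intro j hj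
        have hj1 := Finset.mem_range.1 (hs' hj)
        rw [Finset.mem_union]
        rcases lt_or_ge j (m + M) with h | h
        · exact Or.inr (Finset.mem_range.2 h)
        · left
          refine Finset.mem_image.2 ⟨j - m, Finset.mem_filter.2 ⟨Finset.mem_Ico.2 ⟨by omega,
            by omega⟩, ?_⟩, by omega⟩
          rw [show j - m + m = j by omega]
          exact hs'2 j hj
      have h1 := (Finset.card_le_card hsub).trans (Finset.card_union_le _ _)
      rw [Finset.card_range] at h1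
      have h2 := Finset.card_image_le (s := (Finset.Ico M (n + 1)).filter fun k =>
        x0 (k + m) = !c) (f := fun k => k + m)
      omega
  -- two orbit points
  have hoo : ∀ (z w : X) (m m' : ℕ), m < m' → z.1 = sh^[m] x0 → w.1 = sh^[m'] x0 →
      ¬ IsDC2Pair F (e z) (e w) := by
    intro z w m m' hmm hz hw
    refine not_dc2_of_lower F _ _ fun ε hε => ?_
    obtain ⟨J, hJ⟩ := exists_pow_lt (show 0 < ε / 2 by linarith)
    refine lower_of F _ _ ε (J + m' + 2) fun n => ?_
    have hsub : Finset.range (n + 1) ⊆ ((Finset.range (n + 1)).filter fun k =>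
        dist (F^[k] (e z)) (F^[k] (e w)) < ε) ∪
        ((Finset.range (n + 1)).filter fun k => ∃ i ≤ J, x0 (i + (k + m)) ≠ x0 (i + (k + m'))) := by
      intro k hk
      rw [Finset.mem_union, Finset.mem_filter, Finset.mem_filter]
      by_cases hb : ∃ i ≤ J, x0 (i + (k + m)) ≠ x0 (i + (k + m'))
      · exact Or.inr ⟨hk, hb⟩
      · left
        refine ⟨hk, ?_⟩
        push Not at hb
        rw [hdist]
        have h1 : dist (sh^[k] z.1) (sh^[k] w.1) < (1 / 2) ^ J := by
          refine dist_lt_of_agree fun i hi => ?_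
          rw [hz, hw, ← Function.iterate_add_apply, ← Function.iterate_add_apply]
          exact (sh_iter x0 (k + m) i).trans ((hb i hi).trans (sh_iter x0 (k + m') i).symm)
        linarith
    have h1 := (Finset.card_le_card hsub).trans (Finset.card_union_le _ _)
    rw [Finset.card_range] at h1
    have h2 := bad_card m m' J n hmm
    unfold cnt
    omega
  refine ⟨D, hDm, F, hD, hF, ?_, ?_⟩
  · -- the DC2½ pair
    obtain ⟨z, hz⟩ : ∃ z : X, z.1 = x0 := ⟨⟨x0, x0_mem 0⟩, rfl⟩
    obtain ⟨w, hw⟩ : ∃ w : X, w.1 = zero := ⟨⟨zero, zero_mem⟩, rfl⟩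
    have hzne : e z ≠ e w := by
      intro h
      have h1 := hfar 2 z w (by
        rw [hz, hw]
        have : x0 2 = true := by
          rw [x0_run (j := 1) (by norm_num) (by norm_num)]; rfl
        rw [this]
        exact Bool.noConfusion)
      rw [h, dist_self] at h1
      linarith
    refine ⟨e z, e w, dchalf_of F (e z) (e w) hzne (a := 2 / 5) (b := 9 / 20) (by norm_num)
      (fun δ hδ hδ1 => ?_) (fun δ hδ hδ1 => ?_)⟩
    · refine frequently_atTop.2 fun N => ?_
      obtain ⟨P, hP⟩ : ∃ P, P = 2 ^ (2 * N) := ⟨_, rfl⟩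
      have hP0 : 1 ≤ P := by rw [hP]; exact Nat.one_le_pow _ _ (by norm_num)
      have hPN : N ≤ P := by
        rw [hP]; exact (Nat.lt_two_pow_self.le).trans (Nat.pow_le_pow_right (by norm_num) (by omega))
      refine ⟨16 * P - 1, by omega, ?_⟩
      have e1 : 2 ^ (2 * N + 1) = 2 * P := by rw [hP]; ring
      have e2 : 2 ^ (2 * N + 1 + 1) = 4 * P := by rw [hP]; ring
      have e3 : 2 ^ (2 * N + 3) = 8 * P := by rw [hP]; ring
      have e4 : 2 ^ (2 * N + 3 + 1) = 16 * P := by rw [hP]; ring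
      have hsub : ((Finset.range (16 * P - 1 + 1)).filter fun k =>
          dist (F^[k] (e z)) (F^[k] (e w)) < δ) ⊆
          Finset.range (2 * P) ∪ Finset.Ico (4 * P) (8 * P) := by
        intro k hk
        obtain ⟨hk1, hk2⟩ := Finset.mem_filter.1 hk
        rw [Finset.mem_range] at hk1
        rw [Finset.mem_union, Finset.mem_range, Finset.mem_Ico]
        by_contra hcon
        push Not at hcon
        have hx : x0 k = true := by
          rcases lt_or_ge k (4 * P) with h4 | h4
          · rw [x0_run (j := 2 * N + 1) (by omega) (by omega)]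
            have : (2 * N + 1) % 2 = 1 := by omega
            simp [this]
          · have h5 := hcon.2 h4
            rw [x0_run (j := 2 * N + 3) (by omega) (by omega)]
            have : (2 * N + 3) % 2 = 1 := by omega
            simp [this]
        have h6 := hfar k z w (by rw [hz, hw, hx]; exact Bool.noConfusion)
        linarith
      have hcard := (Finset.card_le_card hsub).trans (Finset.card_union_le _ _)
      rw [Finset.card_range, Nat.card_Ico] at hcard
      have hcnt : cnt F (e z) (e w) δ (16 * P - 1) ≤ 6 * P := by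
        unfold cnt
        omega
      have hPr : (1 : ℝ) ≤ P := by exact_mod_cast hP0
      have hcast : ((16 * P - 1 : ℕ) : ℝ) = 16 * P - 1 := by
        rw [Nat.cast_sub (by omega)]; push_cast; ring
      have hcnt' : (cnt F (e z) (e w) δ (16 * P - 1) : ℝ) ≤ 6 * P := by exact_mod_cast hcnt
      rw [hcast, div_le_iff₀ (by linarith)]
      linarith
    · obtain ⟨J, hJ⟩ := exists_pow_lt (show 0 < δ / 2 by linarith)
      refine frequently_atTop.2 fun N => ?_
      obtain ⟨P, hP⟩ : ∃ P, P = 2 ^ (2 * (N + 10 * J)) := ⟨_, rfl⟩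
      have hPN : N + 10 * J ≤ P := by
        rw [hP]; exact (Nat.lt_two_pow_self.le).trans (Nat.pow_le_pow_right (by norm_num) (by omega))
      have hP0 : 1 ≤ P := by rw [hP]; exact Nat.one_le_pow _ _ (by norm_num)
      refine ⟨2 * P, by omega, ?_⟩
      have e1 : 2 ^ (2 * (N + 10 * J) + 1) = 2 * P := by rw [hP]; ring
      have hsub : Finset.Ico P (2 * P - J) ⊆ ((Finset.range (2 * P + 1)).filter fun k =>
          dist (F^[k] (e z)) (F^[k] (e w)) < δ) := by
        intro k hk
        rw [Finset.mem_Ico] at hk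
        rw [Finset.mem_filter, Finset.mem_range]
        refine ⟨by omega, ?_⟩
        rw [hdist]
        have h1 : dist (sh^[k] z.1) (sh^[k] w.1) < (1 / 2) ^ J := by
          refine dist_lt_of_agree fun i hi => ?_
          refine (sh_iter z.1 k i).trans (Eq.trans ?_ (sh_iter w.1 k i).symm)
          rw [hz, hw, x0_run (j := 2 * (N + 10 * J)) (by omega) (by omega)]
          have : (2 * (N + 10 * J)) % 2 = 0 := by omega
          simp [zero, this]
        linarith
      have hcard := Finset.card_le_card hsub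
      rw [Nat.card_Ico] at hcard
      have hcnt : P ≤ cnt F (e z) (e w) δ (2 * P) + J := by
        unfold cnt
        omega
      have hPr : (1 : ℝ) ≤ P := by exact_mod_cast hP0
      have hJP : (10 : ℝ) * J ≤ P := by
        have : 10 * J ≤ P := by omega
        exact_mod_cast this
      have hcnt' : (P : ℝ) ≤ cnt F (e z) (e w) δ (2 * P) + J := by exact_mod_cast hcnt
      push_cast
      rw [le_div_iff₀ (by linarith)]
      linarith
  · rintro ⟨p, q, hpq⟩
    rcases hall p with ⟨z, rfl⟩ | ⟨N, hN⟩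
    · rcases hall q with ⟨w, rfl⟩ | ⟨M, hM⟩
      · rcases classify z.2 with ⟨m, hm⟩ | ⟨c, M, hM⟩
        · rcases classify w.2 with ⟨m', hm'⟩ | ⟨c', M', hM'⟩
          · rcases lt_trichotomy m m' with h | h | h
            · exact hoo z w m m' h hm hm' hpq
            · apply hpq.1
              congr 1
              exact Subtype.ext (by rw [hm, hm', h])
            · exact hoo w z m' m h hm' hm (dc2_symm hpq)
          · exact hoc z w m c' M' hm hM' hpq
        · rcases classify w.2 with ⟨m', hm'⟩ | ⟨c', M', hM'⟩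
          · exact hoc w z m' c M hm' hM (dc2_symm hpq)
          · by_cases hcc : c = c'
            · refine not_dc2_eq F _ _ (max M M') (fun k hk => ?_) hpq
              rw [hFit, hFit]
              congr 1
              refine Subtype.ext ?_
              rw [T_iter, T_iter]
              funext i
              refine (sh_iter z.1 k i).trans (Eq.trans ?_ (sh_iter w.1 k i).symm)
              have h1 := le_max_left M M'
              have h2 := le_max_right M M'
              rw [hM (i + k) (by omega), hM' (i + k) (by omega), hcc]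
            · refine not_dc2_far F _ _ hdiam (max M M') (fun k hk => ?_) hpq
              have h1 := le_max_left M M'
              have h2 := le_max_right M M'
              refine hfar k z w ?_
              rw [hM k (by omega), hM' k (by omega)]
              exact hcc
      · refine not_dc2_far F (e z) q hdiam M (fun k hk => ?_) hpq
        rw [hFit, hM k hk, her]
    · rcases hall q with ⟨w, rfl⟩ | ⟨M, hM⟩
      · refine not_dc2_far F (e w) p hdiam N (fun k hk => ?_) (dc2_symm hpq)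
        rw [hFit, hN k hk, her]
      · exact not_dc2_eq F p q (max N M) (fun k hk => by
          rw [hN k (le_trans (le_max_left _ _) hk), hM k (le_trans (le_max_right _ _) hk)]) hpq

end Pool.Agent.Results.MP_fd67f7_an.DCHalf
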